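import Pool.Agent.V1146.AD.Main

/-!
# MP_a8f336_ag: the approximation degree of every finite flat `k⟦t⟧`-algebra is zero
-/

namespace Pool.Agent.Results.MP_a8f336_ag.ApproximationDegreeZero

open scoped TensorProduct PowerSeries
open Module Pool.Agent.V1146.AD

/-- Let `k` be algebraically closed.
(1) Every finite flat `k⟦t⟧`-algebra `𝒜` of rank `d` has a `k⟦t⟧`-basis all of whose structure
constants are units of `k⟦t⟧`; in particular its approximation degree is zero.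
(2) Every abstract smoothing of a finite `k`-algebra `A` of degree `d` has approximation degree
zero. In particular, if `A` has a completely split abstract smoothing, then it has one whose
approximation degree is at most `d` (and at most `P d`, for every function `P`). -/
theorem result (k : Type) [Field k] [IsAlgClosed k] :
    (∀ (d : ℕ) (𝒜 : Type) [CommRing 𝒜] [Algebra k⟦X⟧ 𝒜] [Module.Finite k⟦X⟧ 𝒜]
      [Module.Flat k⟦X⟧ 𝒜], finrank k⟦X⟧ 𝒜 = d →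
        (∃ e : Basis (Fin d) k⟦X⟧ 𝒜, ∀ i j l, IsUnit (e.repr (e i * e j) l)) ∧
        approxDegree k 𝒜 d = 0) ∧
    (∀ (d : ℕ) (A : Type) [CommRing A] [Algebra k A] [Module.Finite k A], finrank k A = d →
      (∀ (𝒜 : Type) [CommRing 𝒜] [Algebra k⟦X⟧ 𝒜], IsAbstractSmoothing k 𝒜 A →
        approxDegree k 𝒜 d = 0) ∧
      ((∃ (𝒜 : Type) (_ : CommRing 𝒜) (_ : Algebra k⟦X⟧ 𝒜),
          IsAbstractSmoothing k 𝒜 A ∧ IsCompletelySplit k 𝒜 d) →
        ∀ P : ℕ → ℕ, ∃ (𝒜 : Type) (_ : CommRing 𝒜) (_ : Algebra k⟦X⟧ 𝒜),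
          IsAbstractSmoothing k 𝒜 A ∧ IsCompletelySplit k 𝒜 d ∧
            approxDegree k 𝒜 d ≤ (P d : ℕ∞))) := by
  have hinf : Infinite k := IsAlgClosed.instInfinite
  have key : ∀ (d : ℕ) (𝒜 : Type) [CommRing 𝒜] [Algebra k⟦X⟧ 𝒜] [Module.Finite k⟦X⟧ 𝒜]
      [Module.Flat k⟦X⟧ 𝒜], finrank k⟦X⟧ 𝒜 = d →
        (∃ e : Basis (Fin d) k⟦X⟧ 𝒜, ∀ i j l, IsUnit (e.repr (e i * e j) l)) ∧
        approxDegree k 𝒜 d = 0 := by
    intro d 𝒜 _ _ _ _ hd
    obtain ⟨e, he, h0⟩ := approxDegree_eq_zero hd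
    refine ⟨⟨e, he⟩, ?_⟩
    exact le_antisymm ((iInf_le _ e).trans h0.le) bot_le
  have key2 : ∀ (d : ℕ) (A : Type) [CommRing A] [Algebra k A] [Module.Finite k A],
      finrank k A = d → ∀ (𝒜 : Type) [CommRing 𝒜] [Algebra k⟦X⟧ 𝒜],
        IsAbstractSmoothing k 𝒜 A → approxDegree k 𝒜 d = 0 := by
    intro d A _ _ _ hd 𝒜 _ _ h
    have h1 := h.1
    have h2 := h.2.1
    exact (key d 𝒜 ((finrank_eq h.2.2.2).trans hd)).2
  refine ⟨key, fun d A _ _ _ hd => ⟨key2 d A hd, ?_⟩⟩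
  rintro ⟨𝒜, c1, c2, h, hs⟩ P
  exact ⟨𝒜, c1, c2, h, hs, by rw [key2 d A hd 𝒜 h]; exact bot_le⟩

end Pool.Agent.Results.MP_a8f336_ag.ApproximationDegreeZero
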